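import Mathlib

/-!
# Cyclotomic values and exact exponents of primes in `b ^ (p - 1) - 1`
-/

set_option autoImplicit false

namespace Pool.Agent.Wief

open Polynomial

/-- The value of the `n`-th cyclotomic polynomial at `b`, as a natural number. -/
noncomputable def cv (n b : ℕ) : ℕ := ((cyclotomic n ℤ).eval (b : ℤ)).natAbs

theorem cv_dvd {p n b : ℕ} [Fact p.Prime] :
    p ∣ cv n b ↔ (cyclotomic n (ZMod p)).IsRoot (b : ZMod p) := by
  unfold cv
  rw [← Int.natCast_dvd, IsRoot.def]
  have h := cyclotomic.eval_apply (b : ℤ) n (Int.castRingHom (ZMod p))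
  simp only [eq_intCast, Int.cast_natCast] at h
  rw [h, ZMod.intCast_zmod_eq_zero_iff_dvd]

theorem cv_prod {n b : ℕ} (hn : 0 < n) (hb : 1 ≤ b) :
    ∏ d ∈ n.divisors, cv d b = b ^ n - 1 := by
  have h := prod_cyclotomic_eq_X_pow_sub_one hn ℤ
  have h2 := congrArg (fun P => (P.eval (b : ℤ)).natAbs) h
  simp only [eval_prod, eval_sub, eval_pow, eval_X, eval_one] at h2
  have h3 : (∏ d ∈ n.divisors, (cyclotomic d ℤ).eval (b : ℤ)).natAbs =
      ∏ d ∈ n.divisors, cv d b := by
    unfold cv
    exact map_prod Int.natAbsHom _ _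
  rw [← h3, h2]
  have h4 : 1 ≤ b ^ n := Nat.one_le_pow _ _ hb
  have h5 : ((b : ℤ) ^ n - 1) = ((b ^ n - 1 : ℕ) : ℤ) := by
    rw [Nat.cast_sub h4]; push_cast; rfl
  rw [h5, Int.natAbs_natCast]

theorem cv_pos {n b : ℕ} (hn : 0 < n) (hb : 2 ≤ b) : 0 < cv n b := by
  have h := cv_prod hn (by omega : 1 ≤ b)
  have h1 : 0 < b ^ n - 1 := by
    have : 1 < b ^ n := Nat.one_lt_pow (by omega) (by omega)
    omega
  rw [← h] at h1
  by_contra h0
  have h0' : cv n b = 0 := by omega
  rw [Finset.prod_eq_zero (Nat.mem_divisors_self n (by omega)) h0'] at h1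
  omega

theorem cv_gt_one {n b : ℕ} (hn : 1 < n) (hb : 2 ≤ b) : 1 < cv n b := by
  have h := sub_one_lt_natAbs_cyclotomic_eval (n := n) (q := b) hn (by omega)
  unfold cv
  omega

/-- A prime not dividing `n` divides the value iff the order is `n`. -/
theorem cv_dvd_iff {p n b : ℕ} [hp : Fact p.Prime] (hpn : ¬ p ∣ n) :
    p ∣ cv n b ↔ orderOf (b : ZMod p) = n := by
  have : NeZero (n : ZMod p) := ⟨by rwa [Ne, ZMod.natCast_eq_zero_iff]⟩
  rw [cv_dvd, isRoot_cyclotomic_iff]
  constructor
  · intro h; exact h.eq_orderOf.symm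
  · intro h; rw [← h]; exact IsPrimitiveRoot.orderOf _

theorem order_dvd {p b : ℕ} [hp : Fact p.Prime] (h : 0 < orderOf (b : ZMod p)) :
    orderOf (b : ZMod p) ∣ p - 1 := by
  apply orderOf_dvd_of_pow_eq_one
  apply ZMod.pow_card_sub_one_eq_one
  intro h0
  rw [h0] at h
  have h1 : (0 : ZMod p) ^ orderOf (0 : ZMod p) = 1 := pow_orderOf_eq_one _
  rw [zero_pow h.ne'] at h1
  exact zero_ne_one h1

/-- The exact exponent of `p` in `b ^ (p - 1) - 1` is its exponent in the cyclotomic value. -/
theorem val_eq {p n b : ℕ} [hp : Fact p.Prime] (hb : 2 ≤ b) (hn : 0 < n)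
    (h : orderOf (b : ZMod p) = n) :
    padicValNat p (b ^ (p - 1) - 1) = padicValNat p (cv n b) := by
  have hp1 : 0 < p - 1 := by have := hp.out.two_le; omega
  have hdvd : n ∣ p - 1 := h ▸ order_dvd (h ▸ hn)
  rw [← cv_prod hp1 (by omega : 1 ≤ b)]
  have hmem : n ∈ (p - 1).divisors := Nat.mem_divisors.2 ⟨hdvd, hp1.ne'⟩
  rw [← Finset.mul_prod_erase _ _ hmem]
  have hprod : ¬ p ∣ ∏ d ∈ (p - 1).divisors.erase n, cv d b := by
    intro hd
    rw [Prime.dvd_finsetProd_iff hp.out.prime] at hd
    obtain ⟨d, hd1, hd2⟩ := hd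
    rw [Finset.mem_erase, Nat.mem_divisors] at hd1
    have hpd : ¬ p ∣ d := by
      intro h'
      have := Nat.le_of_dvd hp1 (h'.trans hd1.2.1)
      omega
    rw [cv_dvd_iff hpd, h] at hd2
    exact hd1.1 hd2.symm
  have h0 : ∏ d ∈ (p - 1).divisors.erase n, cv d b ≠ 0 := fun h' => hprod (h' ▸ dvd_zero p)
  rw [padicValNat.mul (cv_pos hn hb).ne' h0, padicValNat.eq_zero_of_not_dvd hprod, add_zero]

/-- If `m' > 0` and `q` is a prime larger than `m'` and `b ^ m'`, every prime divisor of
`cv (m' * q) b` has order exactly `m' * q`. -/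
theorem order_of_dvd {p m q b : ℕ} [hp : Fact p.Prime] (hb : 2 ≤ b) (hm : 0 < m)
    (hq : q.Prime) (hqm : m < q) (hqb : b ^ m < q) (h : p ∣ cv (m * q) b) :
    orderOf (b : ZMod p) = m * q := by
  have hq0 := hq.pos
  by_cases hpn : p ∣ m * q
  · exfalso
    -- the quotient `(b^(mq) - 1) / (b^m - 1)`
    have hprop : m ∈ (m * q).properDivisors := by
      rw [Nat.mem_properDivisors]
      refine ⟨dvd_mul_right m q, ?_⟩
      have := hq.two_le
      nlinarith
    have hdv := X_pow_sub_one_mul_cyclotomic_dvd_X_pow_sub_one_of_dvd (ZMod p) hprop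
    obtain ⟨Q, hQ⟩ := hdv
    have hroot := cv_dvd.1 h
    have hgeom : (X ^ (m * q) - 1 : (ZMod p)[X]) =
        (X ^ m - 1) * ∑ i ∈ Finset.range q, (X ^ m) ^ i := by
      rw [pow_mul, ← mul_geom_sum (X ^ m : (ZMod p)[X]) q]
    have hne : (X ^ m - 1 : (ZMod p)[X]) ≠ 0 := by
      exact (monic_X_pow_sub_C (1 : ZMod p) hm.ne').ne_zero
    have hsum : ∑ i ∈ Finset.range q, (X ^ m : (ZMod p)[X]) ^ i =
        cyclotomic (m * q) (ZMod p) * Q := by
      apply mul_left_cancel₀ hne
      rw [← hgeom, hQ, mul_assoc]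
    have hev := congrArg (eval (b : ZMod p)) hsum
    rw [eval_mul, hroot.eq_zero, zero_mul, eval_finsetSum] at hev
    simp only [eval_pow, eval_X] at hev
    have hpow : (b : ZMod p) ^ (m * q) = 1 := by
      have := congrArg (eval (b : ZMod p)) hgeom
      rw [eval_mul, eval_finsetSum] at this
      simp only [eval_pow, eval_X, eval_sub, eval_one] at this
      rw [hev, mul_zero, sub_eq_zero] at this
      exact this
    rcases (hp.out.dvd_mul).1 hpn with hpm | hpq
    · -- `p ∣ m`
      have hplt : p < q := (Nat.le_of_dvd hm hpm).trans_lt hqm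
      have hbm : (b : ZMod p) ^ m = 1 := by
        have hord : orderOf (b : ZMod p) ∣ m * q := orderOf_dvd_of_pow_eq_one hpow
        have hpos : 0 < orderOf (b : ZMod p) :=
          Nat.pos_of_dvd_of_pos hord (Nat.mul_pos hm hq0)
        have h1 := order_dvd hpos
        have hcop : Nat.Coprime (orderOf (b : ZMod p)) q := by
          rw [Nat.coprime_comm, hq.coprime_iff_not_dvd]
          intro h'
          have := Nat.le_of_dvd hpos h'
          have := Nat.le_of_dvd (by have := hp.out.two_le; omega) h1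
          omega
        exact orderOf_dvd_iff_pow_eq_one.1 (hcop.dvd_of_dvd_mul_right hord)
      rw [hbm] at hev
      simp only [one_pow, Finset.sum_const, Finset.card_range, nsmul_eq_mul, mul_one] at hev
      rw [ZMod.natCast_eq_zero_iff] at hev
      have := (Nat.prime_dvd_prime_iff_eq hp.out hq).1 hev
      omega
    · have hpq' : p = q := (Nat.prime_dvd_prime_iff_eq hp.out hq).1 hpq
      subst hpq'
      have h1 : (b : ZMod p) ^ m = 1 := by
        rw [pow_mul, ZMod.pow_card] at hpow
        exact hpow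
      have h2 : p ∣ b ^ m - 1 := by
        rw [← ZMod.natCast_eq_zero_iff, Nat.cast_sub (Nat.one_le_pow _ _ (by omega))]
        push_cast
        rw [h1, sub_self]
      have h3 : 1 < b ^ m := Nat.one_lt_pow hm.ne' (by omega)
      have := Nat.le_of_dvd (by omega) h2
      omega
  · exact (cv_dvd_iff hpn).1 h

/-- The value modulo a prime of order `m`. -/
theorem cv_mod {t m q b : ℕ} [ht : Fact t.Prime] (hm : 0 < m)
    (hord : orderOf (b : ZMod t) = m) (hq : q.Prime) (hqm : ¬ q ∣ m) (hq1 : m ∣ q - 1) :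
    (((cyclotomic (m * q) ℤ).eval (b : ℤ) : ℤ) : ZMod t) = (q : ZMod t) := by
  have htm : ¬ t ∣ m := by
    intro h
    have h1 : m ∣ t - 1 := by
      rw [← hord]
      exact order_dvd (by rw [hord]; exact hm)
    have := Nat.le_of_dvd (by have := ht.out.two_le; omega) (h.trans h1)
    have := ht.out.two_le
    omega
  set P : (ZMod t)[X] := cyclotomic m (ZMod t) with hP
  set β : ZMod t := (b : ZMod t) with hβ
  have hroot : P.eval β = 0 := by
    have := cv_dvd.1 ((cv_dvd_iff htm).2 hord)
    exact this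
  -- the derivative does not vanish
  have hder : P.derivative.eval β ≠ 0 := by
    intro h0
    obtain ⟨Q, hQ⟩ : P ∣ X ^ m - 1 := cyclotomic.dvd_X_pow_sub_one m (ZMod t)
    have h1 := congrArg derivative hQ
    rw [derivative_mul, derivative_sub, derivative_X_pow, derivative_one, sub_zero] at h1
    have h2 := congrArg (eval β) h1
    simp only [eval_add, eval_mul, hroot, h0, zero_mul, add_zero, eval_C, eval_pow, eval_X] at h2
    have h3 : (m : ZMod t) ≠ 0 := by rwa [Ne, ZMod.natCast_eq_zero_iff]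
    have h4 : β ^ (m - 1) ≠ 0 := by
      apply pow_ne_zero
      intro h5
      have h6 : β ^ m = 1 := by rw [← hord]; exact pow_orderOf_eq_one _
      rw [h5, zero_pow hm.ne'] at h6
      exact zero_ne_one h6
    exact mul_ne_zero h3 h4 h2
  have hexp := cyclotomic_expand_eq_cyclotomic_mul hq hqm (ZMod t)
  have hd := congrArg derivative hexp
  rw [derivative_expand, derivative_mul] at hd
  have he := congrArg (eval β) hd
  have hβq : β ^ q = β := by
    obtain ⟨j, hj⟩ := hq1
    have hq2 := hq.two_le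
    have : q = m * j + 1 := by omega
    rw [this, pow_succ, pow_mul, ← hord, pow_orderOf_eq_one, one_pow, one_mul]
  have hβq1 : β ^ (q - 1) = 1 := by
    obtain ⟨j, hj⟩ := hq1
    rw [hj, pow_mul, ← hord, pow_orderOf_eq_one, one_pow]
  simp only [eval_add, eval_mul, ← hP, hroot, mul_zero, zero_add, expand_eval, hβq,
    eval_natCast, eval_pow, eval_X, hβq1, mul_one] at he
  have h5 : (cyclotomic (m * q) (ZMod t)).eval β = (q : ZMod t) := by
    apply mul_right_cancel₀ hder
    rw [← he, mul_comm]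
  have h := cyclotomic.eval_apply (b : ℤ) (m * q) (Int.castRingHom (ZMod t))
  simp only [eq_intCast, Int.cast_natCast] at h
  rw [← h5, ← h]

end Pool.Agent.Wief
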