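import Mathlib

/-!
# Squarefree numbers in the progression `1 mod M`
-/

set_option autoImplicit false

namespace Pool.Agent.Wief

theorem card_ap_le {D K : ℕ} (S : Finset ℕ) (hS : ∀ a ∈ S, a ≤ K)
    (hmod : ∀ a ∈ S, ∀ b ∈ S, a ≡ b [MOD D]) : S.card ≤ K / D + 1 := by
  rw [← Finset.card_range (K / D + 1)]
  refine Finset.card_le_card_of_injOn (fun a => a / D) ?_ ?_
  · intro a ha
    have ha' : a ∈ S := ha
    simp only [Finset.coe_range, Set.mem_Iio]
    exact Nat.lt_succ_of_le (Nat.div_le_div_right (hS a ha'))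
  · intro a ha b hb hab
    have ha' : a ∈ S := ha
    have hb' : b ∈ S := hb
    have h1 := hmod a ha' b hb'
    have h2 : a / D = b / D := hab
    have h3 := Nat.div_add_mod a D
    have h4 := Nat.div_add_mod b D
    unfold Nat.ModEq at h1
    rw [← h3, ← h4, h1, h2]

theorem ap_count {M : ℕ} (hM : 0 < M) (K : ℕ) :
    K ≤ M * ((Finset.range (K + 1)).filter fun k => k ≡ 1 [MOD M]).card := by
  have h : (Finset.range ((K + M - 1) / M)).card ≤
      ((Finset.range (K + 1)).filter fun k => k ≡ 1 [MOD M]).card := by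
    refine Finset.card_le_card_of_injOn (fun i => 1 + M * i) ?_ ?_
    · intro i hi
      simp only [Finset.coe_range, Set.mem_Iio] at hi
      simp only [Finset.coe_filter, Finset.mem_range, Set.mem_ofPred_eq]
      have h1 : (i + 1) * M ≤ K + M - 1 := (Nat.le_div_iff_mul_le hM).1 hi
      refine ⟨?_, ?_⟩
      · have : (i + 1) * M = M * i + M := by ring
        omega
      · unfold Nat.ModEq
        rw [Nat.add_mul_mod_self_left]
    · intro i _ j _ hij
      have h1 : 1 + M * i = 1 + M * j := hij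
      have h2 : M * i = M * j := by omega
      exact Nat.eq_of_mul_eq_mul_left hM h2
  rw [Finset.card_range] at h
  have h2 : K ≤ M * ((K + M - 1) / M) := by
    have h3 := Nat.div_add_mod (K + M - 1) M
    have h4 := Nat.mod_lt (K + M - 1) hM
    omega
  exact h2.trans (Nat.mul_le_mul_left M h)

theorem sum_inv_sq (s : ℕ) :
    ∑ i ∈ Finset.Icc 1 s, (1 : ℝ) / (2 * (i : ℝ) + 1) ^ 2 ≤
      (1 / 4 - 1 / (4 * ((s : ℝ) + 1)) : ℝ) := by
  induction s with
  | zero => simp
  | succ s ih =>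
    rw [Finset.sum_Icc_succ_top (by omega)]
    have h1 : (1 : ℝ) / (2 * ((s + 1 : ℕ) : ℝ) + 1) ^ 2 ≤
        1 / (4 * (s + 1)) - 1 / (4 * ((s + 1 : ℕ) + 1)) := by
      push_cast
      have hs : (0 : ℝ) ≤ s := Nat.cast_nonneg s
      rw [div_sub_div _ _ (by positivity) (by positivity), div_le_div_iff₀ (by positivity)
        (by positivity)]
      nlinarith
    push_cast at h1 ⊢
    linarith

theorem nonsq_count {M : ℕ} (hM : 0 < M) (hM2 : 2 ∣ M) (K : ℕ) :
    (((Finset.range (K + 1)).filter fun k => k ≡ 1 [MOD M] ∧ ¬ Squarefree k).card : ℝ) ≤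
      K / (4 * M) + Nat.sqrt K := by
  have hsub : ((Finset.range (K + 1)).filter fun k => k ≡ 1 [MOD M] ∧ ¬ Squarefree k) ⊆
      (Finset.Icc 1 (Nat.sqrt K)).biUnion fun i =>
        (Finset.range (K + 1)).filter fun k => k ≡ 1 [MOD M] ∧ (2 * i + 1) ^ 2 ∣ k := by
    intro k hk
    rw [Finset.mem_filter, Finset.mem_range] at hk
    obtain ⟨hkK, hk1, hk2⟩ := hk
    have hkodd : k % 2 = 1 := by
      have := hk1.of_dvd hM2
      exact this
    rw [Nat.squarefree_iff_prime_squarefree] at hk2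
    push Not at hk2
    obtain ⟨p, hp, hpk⟩ := hk2
    have hpp : p.Prime := hp
    have hpodd : p % 2 = 1 := by
      rcases hpp.eq_two_or_odd with h2 | h2
      · subst h2; omega
      · exact h2
    have hp3 : 3 ≤ p := by
      have := hpp.two_le
      omega
    rw [Finset.mem_biUnion]
    refine ⟨(p - 1) / 2, ?_, ?_⟩
    · rw [Finset.mem_Icc]
      refine ⟨by omega, ?_⟩
      have h1 : p * p ≤ K := (Nat.le_of_dvd (by omega) hpk).trans (by omega)
      have h2 : p ≤ Nat.sqrt K := Nat.le_sqrt.2 h1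
      omega
    · rw [Finset.mem_filter, Finset.mem_range]
      refine ⟨hkK, hk1, ?_⟩
      have : 2 * ((p - 1) / 2) + 1 = p := by omega
      rw [this, pow_two]
      exact hpk
  have h1 := (Finset.card_le_card hsub).trans Finset.card_biUnion_le
  have h2 : ∀ i ∈ Finset.Icc 1 (Nat.sqrt K),
      (((Finset.range (K + 1)).filter fun k => k ≡ 1 [MOD M] ∧ (2 * i + 1) ^ 2 ∣ k).card : ℝ) ≤
        (K / M) * (1 / (2 * (i : ℝ) + 1) ^ 2) + 1 := by
    intro i _
    rcases Finset.eq_empty_or_nonempty ((Finset.range (K + 1)).filter fun k =>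
      k ≡ 1 [MOD M] ∧ (2 * i + 1) ^ 2 ∣ k) with he | ⟨k0, hk0⟩
    · rw [he, Finset.card_empty]
      push_cast
      positivity
    · have hcop : Nat.Coprime M ((2 * i + 1) ^ 2) := by
        rw [Finset.mem_filter] at hk0
        have h3 : Nat.Coprime k0 M := by
          have := hk0.2.1.gcd_eq
          unfold Nat.Coprime
          rw [this, Nat.gcd_one_left]
        exact (Nat.Coprime.coprime_dvd_left hk0.2.2 h3).symm
      have h4 : ((Finset.range (K + 1)).filter fun k =>
          k ≡ 1 [MOD M] ∧ (2 * i + 1) ^ 2 ∣ k).card ≤ K / (M * (2 * i + 1) ^ 2) + 1 := by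
        apply card_ap_le
        · intro a ha
          rw [Finset.mem_filter, Finset.mem_range] at ha
          omega
        · intro a ha b hb
          rw [Finset.mem_filter] at ha hb
          rw [← Nat.modEq_and_modEq_iff_modEq_mul hcop]
          refine ⟨ha.2.1.trans hb.2.1.symm, ?_⟩
          exact ((Nat.modEq_zero_iff_dvd).2 ha.2.2).trans ((Nat.modEq_zero_iff_dvd).2 hb.2.2).symm
      have h5 : ((K / (M * (2 * i + 1) ^ 2) : ℕ) : ℝ) ≤ (K / M) * (1 / (2 * (i : ℝ) + 1) ^ 2) := by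
        refine (Nat.cast_div_le).trans (le_of_eq ?_)
        push_cast
        rw [mul_one_div, div_div]
      calc _ ≤ ((K / (M * (2 * i + 1) ^ 2) + 1 : ℕ) : ℝ) := by exact_mod_cast h4
        _ ≤ _ := by push_cast at h5 ⊢; linarith
  have h3 : (((Finset.range (K + 1)).filter fun k => k ≡ 1 [MOD M] ∧ ¬ Squarefree k).card : ℝ) ≤
      ∑ i ∈ Finset.Icc 1 (Nat.sqrt K), ((K / M : ℝ) * (1 / (2 * (i : ℝ) + 1) ^ 2) + 1) := by
    refine le_trans ?_ (Finset.sum_le_sum h2)
    exact_mod_cast h1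
  rw [Finset.sum_add_distrib, ← Finset.mul_sum, Finset.sum_const, Nat.card_Icc, nsmul_eq_mul,
    mul_one] at h3
  have h4 := sum_inv_sq (Nat.sqrt K)
  have h5 : (0 : ℝ) ≤ 1 / (4 * ((Nat.sqrt K : ℝ) + 1)) := by positivity
  have h6 : (K / M : ℝ) * ∑ i ∈ Finset.Icc 1 (Nat.sqrt K), (1 : ℝ) / (2 * (i : ℝ) + 1) ^ 2 ≤
      (K / M : ℝ) * (1 / 4) := mul_le_mul_of_nonneg_left (by linarith) (by positivity)
  have h7 : (K / M : ℝ) * (1 / 4) = K / (4 * M) := by
    rw [mul_one_div, div_div, mul_comm (M : ℝ) 4]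
  have h8 : ((Nat.sqrt K + 1 - 1 : ℕ) : ℝ) = Nat.sqrt K := by simp
  rw [h8] at h3
  linarith

/-- Squarefree numbers in the progression `1 mod M`. -/
theorem sf_count {M : ℕ} (hM : 0 < M) (hM2 : 2 ∣ M) (K : ℕ) :
    (3 * K : ℝ) / (4 * M) - Nat.sqrt K ≤
      ((Finset.range (K + 1)).filter fun k => k ≡ 1 [MOD M] ∧ Squarefree k).card := by
  have h1 := ap_count hM K
  have h2 := nonsq_count hM hM2 K
  have h3 : ((Finset.range (K + 1)).filter fun k => k ≡ 1 [MOD M]).card =
      ((Finset.range (K + 1)).filter fun k => k ≡ 1 [MOD M] ∧ Squarefree k).card +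
        ((Finset.range (K + 1)).filter fun k => k ≡ 1 [MOD M] ∧ ¬ Squarefree k).card := by
    rw [← Finset.filter_filter, ← Finset.filter_filter]
    exact (Finset.card_filter_add_card_filter_not _).symm
  have hM' : (0 : ℝ) < M := by exact_mod_cast hM
  have h4 : (K : ℝ) / M ≤ ((Finset.range (K + 1)).filter fun k => k ≡ 1 [MOD M]).card := by
    rw [div_le_iff₀ hM', mul_comm]
    exact_mod_cast h1
  rw [h3] at h4
  push_cast at h4
  have h5 : (3 * K : ℝ) / (4 * M) = K / M - K / (4 * M) := by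
    field_simp
    ring
  linarith

end Pool.Agent.Wief
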