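import Pool.Agent.Wief.ProgB
import Pool.Agent.Wief.Count

/-!
# Many primes with an odd exponent in `2 ^ (p - 1) - 1`: the count
-/

set_option autoImplicit false

namespace Pool.Agent.Wief

open Polynomial
open scoped Classical

/-- The primes which we count. -/
def Rp (s Q p : ℕ) : Prop :=
  p.Prime ∧ (∃ k, Odd k ∧ orderOf (2 : ZMod p) = s * k) ∧
    Odd (padicValNat p (2 ^ (p - 1) - 1)) ∧ ¬ p ≡ 1 [MOD Q]

/-- Each good `n` gives a prime. -/
theorem good_prime {s Q n : ℕ} (hQ : Q ∣ 8) (hn : 0 < n) (hs : ∃ k, Odd k ∧ n = s * k) (hodd : cv n 2 % 2 = 1)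
    (hcv : ¬ cv n 2 ≡ 1 [MOD Q]) (hgood : ∀ p, p.Prime → p ∣ cv n 2 → ¬ p ∣ n) :
    ∃ p, Rp s Q p ∧ orderOf (2 : ZMod p) = n ∧ p < 2 ^ n := by
  by_contra hcon
  push Not at hcon
  apply hcv
  apply mod_of_odd hQ hodd
  intro p hp hpo
  have : Fact p.Prime := ⟨hp⟩
  by_contra hpQ
  have hpd : p ∣ cv n 2 := by
    by_contra h
    rw [padicValNat.eq_zero_of_not_dvd h] at hpo
    simp at hpo
  have hord : orderOf ((2 : ℕ) : ZMod p) = n := (cv_dvd_iff (hgood p hp hpd)).1 hpd
  have hval := val_eq (p := p) (b := 2) le_rfl hn hord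
  have hord' : orderOf (2 : ZMod p) = n := by
    rw [← hord]; norm_num
  have h1 := hcon p ⟨hp, by rw [hord']; exact hs, by rw [hval]; exact hpo, hpQ⟩ hord'
  have h2 : cv n 2 ∣ 2 ^ n - 1 := by
    rw [← cv_prod hn (by norm_num : 1 ≤ 2)]
    exact Finset.dvd_prod_of_mem _ (Nat.mem_divisors_self n hn.ne')
  have h3 : 1 < 2 ^ n := Nat.one_lt_two_pow hn.ne'
  have h4 := Nat.le_of_dvd (by omega) (hpd.trans h2)
  omega

/-- The orders times the primes, up to `N`. -/
noncomputable def Bset (L N : ℕ) : Finset ℕ :=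
  ((Finset.range (2 ^ L)) ∪ (Finset.range (N / L + 1))).image fun p => orderOf (2 : ZMod p) * p

theorem Bset_card (L N : ℕ) : (Bset L N).card ≤ 2 ^ L + (N / L + 1) := by
  refine Finset.card_image_le.trans ((Finset.card_union_le _ _).trans ?_)
  rw [Finset.card_range, Finset.card_range]

theorem mem_Bset {L N p n : ℕ} (hL : 0 < L) (hp : p.Prime) (hn : 0 < n)
    (h : orderOf (2 : ZMod p) * p = n) (hN : n ≤ N) : n ∈ Bset L N := by
  rw [Bset, Finset.mem_image]
  refine ⟨p, ?_, h⟩
  rw [Finset.mem_union, Finset.mem_range, Finset.mem_range]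
  by_cases h1 : p < 2 ^ L
  · exact Or.inl h1
  · right
    have : Fact p.Prime := ⟨hp⟩
    have hord : 0 < orderOf (2 : ZMod p) := by
      by_contra h0
      have h0' : orderOf (2 : ZMod p) = 0 := by omega
      rw [h0', zero_mul] at h
      omega
    have h2 : p ∣ 2 ^ orderOf (2 : ZMod p) - 1 := by
      rw [← ZMod.natCast_eq_zero_iff, Nat.cast_sub Nat.one_le_two_pow]
      push_cast
      rw [pow_orderOf_eq_one, sub_self]
    have h3 : 1 < 2 ^ orderOf (2 : ZMod p) := Nat.one_lt_two_pow hord.ne'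
    have h4 := Nat.le_of_dvd (by omega) h2
    have h5 : 2 ^ L < 2 ^ orderOf (2 : ZMod p) := by omega
    have h6 : L < orderOf (2 : ZMod p) := (Nat.pow_lt_pow_iff_right (by norm_num)).1 h5
    have h7 : L * p ≤ N := (Nat.mul_le_mul_right p h6.le).trans (by rw [h]; exact hN)
    have h8 : p ≤ N / L := (Nat.le_div_iff_mul_le hL).2 (by rw [mul_comm]; exact h7)
    omega

/-- The count in powers of two. -/
theorem dens_pow {m s Q : ℕ} (hm : Odd m) (hsq : Squarefree m) (hs : s = m ∨ s = 2 * m ∨ s = 4 * m)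
    (hQ : Q ∣ 8) (hcv : ∀ k, Squarefree (m * k) → k ≡ 1 [MOD 4 * m] → 1 < s * k →
      cv (s * k) 2 % 2 = 1 ∧ ¬ cv (s * k) 2 ≡ 1 [MOD Q]) (N L : ℕ) (hL : 0 < L) :
    (3 * (N / s : ℕ) : ℝ) / (4 * (4 * m : ℕ)) - Nat.sqrt (N / s) ≤
      ((Finset.range (2 ^ N)).filter fun p => Rp s Q p).card + 1 + 2 ^ L + (N / L + 1 : ℕ) := by
  have hm0 : 0 < m := by
    rcases Nat.eq_zero_or_pos m with h | h
    · subst h; exact absurd hm (by decide)
    · exact h
  have hs0 : 0 < s := by rcases hs with h | h | h <;> omega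
  set A := (Finset.range (N / s + 1)).filter fun k => k ≡ 1 [MOD 4 * m] ∧ Squarefree k with hA
  have h1 := sf_count (M := 4 * m) (by omega) ⟨2 * m, by ring⟩ (N / s)
  rw [← hA] at h1
  set T := (A.image fun k => s * k).erase 1 with hT
  have hTc : A.card ≤ T.card + 1 := by
    have h2 : (A.image fun k => s * k).card = A.card := by
      apply Finset.card_image_of_injective
      intro a b hab
      exact Nat.eq_of_mul_eq_mul_left hs0 hab
    have h3 := Finset.pred_card_le_card_erase (s := A.image fun k => s * k) (a := 1)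
    rw [← h2, hT]
    omega
  have hTB : T.card ≤ (T \ Bset L N).card + (Bset L N).card := by
    have := Finset.le_card_sdiff (Bset L N) T
    omega
  have hprop : ∀ n ∈ T \ Bset L N, ∃ p, Rp s Q p ∧ orderOf (2 : ZMod p) = n ∧ p < 2 ^ N := by
    intro n hn
    rw [Finset.mem_sdiff, hT, Finset.mem_erase, Finset.mem_image] at hn
    obtain ⟨⟨hn1, k, hk, hkn⟩, hnB⟩ := hn
    rw [hA, Finset.mem_filter, Finset.mem_range] at hk
    obtain ⟨hkN, hkm, hksq⟩ := hk
    have hk0 : 0 < k := by
      rcases Nat.eq_zero_or_pos k with h | h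
      · subst h; exact absurd hksq not_squarefree_zero
      · exact h
    have hn0 : 0 < n := by rw [← hkn]; exact Nat.mul_pos hs0 hk0
    have hnN : n ≤ N := by
      rw [← hkn]
      have h3 : k ≤ N / s := by omega
      calc s * k ≤ s * (N / s) := Nat.mul_le_mul_left s h3
        _ ≤ N := Nat.mul_div_le N s
    have hcop : Nat.Coprime k (4 * m) := by
      have := hkm.gcd_eq
      unfold Nat.Coprime
      rw [this, Nat.gcd_one_left]
    have hcopm : Nat.Coprime m k := (Nat.Coprime.coprime_dvd_right (dvd_mul_left m 4) hcop).symm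
    have hmk : Squarefree (m * k) := (Nat.squarefree_mul hcopm).2 ⟨hsq, hksq⟩
    have hkodd : k % 2 = 1 := by
      have : Nat.Coprime k 2 :=
        Nat.Coprime.coprime_dvd_right ⟨2 * m, by ring⟩ hcop
      rcases Nat.mod_two_eq_zero_or_one k with h | h
      · have h2 : 2 ∣ k := Nat.dvd_of_mod_eq_zero h
        have := Nat.Coprime.eq_one_of_dvd this.symm h2
        omega
      · exact h
    obtain ⟨ho, hc⟩ := hcv k hmk hkm (by omega)
    rw [hkn] at ho hc
    have hgood : ∀ p, p.Prime → p ∣ cv n 2 → ¬ p ∣ n := by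
      intro p hp hpc hpn
      apply hnB
      have : Fact p.Prime := ⟨hp⟩
      have hpodd : p % 2 = 1 := by
        rcases hp.eq_two_or_odd with h2 | h2
        · subst h2; omega
        · exact h2
      -- write `n = n0 * p`
      have hpmk : p ∣ m * k := by
        rcases hs with h | h | h
        · rw [← hkn, h] at hpn; exact hpn
        · rw [← hkn, h, mul_assoc] at hpn
          rcases (hp.dvd_mul).1 hpn with h4 | h4
          · exfalso
            have h7 := (Nat.prime_dvd_prime_iff_eq hp Nat.prime_two).1 h4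
            omega
          · exact h4
        · rw [← hkn, h, mul_assoc] at hpn
          rcases (hp.dvd_mul).1 hpn with h4 | h4
          · exfalso
            have h5 : p ∣ 2 ^ 2 := h4
            have h6 := hp.dvd_of_dvd_pow h5
            have h7 := (Nat.prime_dvd_prime_iff_eq hp Nat.prime_two).1 h6
            omega
          · exact h4
      obtain ⟨a, ha⟩ := hpmk
      have hpa : ¬ p ∣ a := by
        rintro ⟨c, rfl⟩
        rw [ha] at hmk
        have := hmk p ⟨c, by ring⟩
        exact hp.one_lt.ne' (Nat.isUnit_iff.1 this)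
      obtain ⟨n0, hn0p, hpn0⟩ : ∃ n0, n = n0 * p ∧ ¬ p ∣ n0 := by
        rcases hs with h | h | h
        · exact ⟨a, by rw [← hkn, h, ha]; ring, hpa⟩
        · refine ⟨2 * a, by rw [← hkn, h, mul_assoc, ha]; ring, ?_⟩
          intro h4
          rcases (hp.dvd_mul).1 h4 with h4 | h4
          · have h7 := (Nat.prime_dvd_prime_iff_eq hp Nat.prime_two).1 h4
            omega
          · exact hpa h4
        · refine ⟨4 * a, by rw [← hkn, h, mul_assoc, ha]; ring, ?_⟩
          intro h4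
          rcases (hp.dvd_mul).1 h4 with h4 | h4
          · have h5 : p ∣ 2 ^ 2 := h4
            have h6 := hp.dvd_of_dvd_pow h5
            have h7 := (Nat.prime_dvd_prime_iff_eq hp Nat.prime_two).1 h6
            omega
          · exact hpa h4
      rw [hn0p] at hpc
      have hi := intrinsic hpn0 hpc
      refine mem_Bset hL hp hn0 ?_ hnN
      rw [Nat.cast_two] at hi
      rw [hi, hn0p]
    obtain ⟨p, hp1, hp2, hp3⟩ := good_prime (s := s) hQ hn0
      ⟨k, Nat.odd_iff.2 hkodd, hkn.symm⟩ ho hc hgood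
    exact ⟨p, hp1, hp2, hp3.trans_le (Nat.pow_le_pow_right (by norm_num) hnN)⟩
  have hcard : (T \ Bset L N).card ≤ ((Finset.range (2 ^ N)).filter fun p => Rp s Q p).card := by
    choose! f hf using hprop
    refine Finset.card_le_card_of_injOn f ?_ ?_
    · intro n hn
      have h3 := hf n hn
      simp only [Finset.coe_filter, Finset.mem_range, Set.mem_ofPred_eq]
      exact ⟨h3.2.2, h3.1⟩
    · intro a ha b hb hab
      have h3 := (hf a ha).2.1
      have h4 := (hf b hb).2.1
      rw [← h3, ← h4, hab]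
  have hB := Bset_card L N
  have htot : A.card ≤ ((Finset.range (2 ^ N)).filter fun p => Rp s Q p).card + 1 + 2 ^ L +
      (N / L + 1) := by omega
  refine h1.trans ?_
  exact_mod_cast htot

/-- The count up to `x`. -/
theorem dens_log {m s Q : ℕ} (hm : Odd m) (hsq : Squarefree m) (hs : s = m ∨ s = 2 * m ∨ s = 4 * m)
    (hQ : Q ∣ 8) (hcv : ∀ k, Squarefree (m * k) → k ≡ 1 [MOD 4 * m] → 1 < s * k →
      cv (s * k) 2 % 2 = 1 ∧ ¬ cv (s * k) 2 ≡ 1 [MOD Q]) :
    ∃ c : ℝ, 0 < c ∧ ∃ x₀ : ℕ, ∀ x : ℕ, x₀ ≤ x →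
      c * Real.log x ≤ ((Finset.range (x + 1)).filter fun p => Rp s Q p).card := by
  have hm0 : 0 < m := by
    rcases Nat.eq_zero_or_pos m with h | h
    · subst h; exact absurd hm (by decide)
    · exact h
  have hs0 : 0 < s := by rcases hs with h | h | h <;> omega
  have hsm : s ≤ 4 * m := by rcases hs with h | h | h <;> omega
  set L := 64 * m ^ 2 with hL
  have hL0 : 0 < L := by positivity
  set C := 2 ^ L + 4 with hC
  refine ⟨1 / (128 * (m : ℝ) ^ 2), by positivity, 2 ^ ((L * C) ^ 2), fun x hx => ?_⟩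
  set N := Nat.log 2 x with hN
  have hx0 : x ≠ 0 := by
    rintro rfl
    have : 0 < 2 ^ ((L * C) ^ 2) := by positivity
    omega
  have hNx : 2 ^ N ≤ x := Nat.pow_log_le_self 2 hx0
  have hN0 : (L * C) ^ 2 ≤ N := (Nat.le_log_iff_pow_le (by norm_num) hx0).2 hx
  have hLC : 1 ≤ L * C := Nat.mul_pos hL0 (by positivity)
  have hN1 : 1 ≤ N := (Nat.one_le_pow _ _ hLC).trans hN0
  have h1 := dens_pow hm hsq hs hQ hcv N L hL0
  -- the real inequalities
  set P := ((Finset.range (2 ^ N)).filter fun p => Rp s Q p).card with hP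
  have hmR : (1 : ℝ) ≤ m := by exact_mod_cast hm0
  have hsR : (1 : ℝ) ≤ s := by exact_mod_cast hs0
  have hsmR : (s : ℝ) ≤ 4 * m := by exact_mod_cast hsm
  have hNR : (1 : ℝ) ≤ N := by exact_mod_cast hN1
  have hLR : (L : ℝ) = 64 * (m : ℝ) ^ 2 := by rw [hL]; push_cast; ring
  have hK : (N : ℝ) / (4 * m) - 1 ≤ ((N / s : ℕ) : ℝ) := by
    have h2 : (N : ℝ) / s < ((N / s : ℕ) : ℝ) + 1 := by
      rw [div_lt_iff₀ (by linarith)]
      have h3 := Nat.lt_div_mul_add (a := N) hs0
      have h4 : N < (N / s + 1) * s := by rw [add_mul, one_mul]; exact h3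
      exact_mod_cast h4
    have h3 : (N : ℝ) / (4 * m) ≤ N / s :=
      div_le_div_of_nonneg_left (by linarith) (by linarith) hsmR
    linarith
  have hsqrt : ((Nat.sqrt (N / s) : ℕ) : ℝ) ≤ Real.sqrt N := by
    have h2 : Nat.sqrt (N / s) ≤ Nat.sqrt N := Nat.sqrt_le_sqrt (Nat.div_le_self N s)
    have h3 : ((Nat.sqrt (N / s) : ℕ) : ℝ) ≤ ((Nat.sqrt N : ℕ) : ℝ) := by exact_mod_cast h2
    exact h3.trans Real.nat_sqrt_le_real_sqrt
  have hNL : ((N / L + 1 : ℕ) : ℝ) ≤ N / L + 1 := by
    push_cast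
    have := @Nat.cast_div_le ℝ _ _ _ N L
    linarith
  have hsq2 : ((L * C : ℕ) : ℝ) ≤ Real.sqrt N := by
    apply Real.le_sqrt_of_sq_le
    exact_mod_cast hN0
  have hsq1 : 1 ≤ Real.sqrt N := by
    rw [Real.one_le_sqrt]; exact hNR
  have hss : Real.sqrt N * Real.sqrt N = N := Real.mul_self_sqrt (by linarith)
  have hCR : (C : ℝ) = 2 ^ L + 4 := by rw [hC]; push_cast; ring
  have hLpos : (0 : ℝ) < L := by exact_mod_cast hL0
  -- `√N * C ≤ N / L`
  have hkey : Real.sqrt N * C ≤ N / L := by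
    rw [le_div_iff₀ hLpos]
    have h2 : (L : ℝ) * C ≤ Real.sqrt N := by
      have := hsq2
      push_cast at this
      exact this
    nlinarith
  have hkey2 : Real.sqrt N + 2 ^ L + 3 ≤ N / L := by
    refine le_trans ?_ hkey
    rw [hCR]
    have h3 : (0 : ℝ) < 2 ^ L := by positivity
    nlinarith
  have hmain : (N : ℝ) / L ≤ P := by
    have h2 : 3 * ((N : ℝ) / (4 * m) - 1) / (4 * (4 * m)) ≤
        (3 * ((N / s : ℕ) : ℝ)) / (4 * ((4 * m : ℕ) : ℝ)) := by
      push_cast
      apply div_le_div_of_nonneg_right _ (by positivity)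
      have := hK
      linarith
    have h3 : 3 * ((N : ℝ) / (4 * m) - 1) / (4 * (4 * m)) = 3 * (N / L) - 3 / (16 * m) := by
      rw [hLR]
      field_simp
      ring
    have h4 : 3 / (16 * (m : ℝ)) ≤ 1 := by
      rw [div_le_one (by positivity)]
      linarith
    linarith
  have hP2 : P ≤ ((Finset.range (x + 1)).filter fun p => Rp s Q p).card := by
    apply Finset.card_le_card
    apply Finset.filter_subset_filter
    intro p hp
    rw [Finset.mem_range] at hp ⊢
    omega
  have hP3 : (P : ℝ) ≤ (((Finset.range (x + 1)).filter fun p => Rp s Q p).card : ℝ) := by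
    exact_mod_cast hP2
  refine le_trans ?_ (hmain.trans hP3)
  -- `log x ≤ 2 N`
  have hlog : Real.log x ≤ 2 * N := by
    have h2 : x < 2 ^ (N + 1) := Nat.lt_pow_succ_log_self (by norm_num) x
    have h3 : (x : ℝ) ≤ 2 ^ (N + 1) := by exact_mod_cast h2.le
    have h4 : Real.log x ≤ Real.log (2 ^ (N + 1)) :=
      Real.log_le_log (by exact_mod_cast Nat.pos_of_ne_zero hx0) h3
    rw [Real.log_pow] at h4
    have h5 : Real.log 2 ≤ 1 := by
      have := Real.log_two_lt_d9
      linarith
    push_cast at h4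
    nlinarith
  rw [hLR, div_mul_eq_mul_div, one_mul, div_le_div_iff₀ (by positivity) (by positivity)]
  nlinarith

end Pool.Agent.Wief
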