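import Mathlib

/-!
# Runge's method: a monic integer polynomial whose degree is divisible by `r` and which is not an
`r`-th power takes `r`-th powers as values at finitely many natural numbers only
-/

set_option autoImplicit false

namespace Pool.Agent.Wief

open Polynomial Filter Topology

/-- Approximate roots of polynomials. -/
theorem approx_root {r D : ℕ} (hr : 1 ≤ r) (F : ℚ[X]) (hF : F.Monic)
    (hdeg : F.natDegree = r * D) : ∀ j ≤ D, ∃ h : ℚ[X], h.Monic ∧ h.natDegree = D ∧
      ∀ k, r * D - j ≤ k → (F - h ^ r).coeff k = 0 := by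
  intro j
  induction j with
  | zero =>
    intro _
    refine ⟨X ^ D, monic_X_pow D, natDegree_X_pow D, ?_⟩
    intro k hk
    rw [← pow_mul, coeff_sub, coeff_X_pow]
    rcases Nat.lt_or_ge (r * D) k with h | h
    · rw [coeff_eq_zero_of_natDegree_lt (by omega), if_neg (by rw [mul_comm]; omega), sub_zero]
    · have hk' : k = r * D := by omega
      rw [if_pos (by rw [hk', mul_comm]), hk', ← hdeg, hF.coeff_natDegree, sub_self]
  | succ j ih =>
    intro hj
    obtain ⟨h, hm, hd, hc⟩ := ih (by omega)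
    have hrD : D ≤ r * D := Nat.le_mul_of_pos_left D (by omega)
    set n := r * D - (j + 1) with hn
    set c := (F - h ^ r).coeff n with hcdef
    set u : ℚ[X] := C (c / r) * X ^ (D - j - 1) with hu
    have hudeg : u.natDegree ≤ D - j - 1 := natDegree_C_mul_X_pow_le _ _
    have hult : u.degree < h.degree := by
      rw [degree_eq_natDegree hm.ne_zero, hd]
      refine lt_of_le_of_lt (degree_C_mul_X_pow_le _ _) ?_
      exact_mod_cast (by omega : D - j - 1 < D)
    have hm' : (h + u).Monic := hm.add_of_left hult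
    have hd' : (h + u).natDegree = D := by
      rw [natDegree_add_eq_left_of_degree_lt hult, hd]
    set S : ℚ[X] := ∑ i ∈ Finset.range r, (h + u) ^ i * h ^ (r - 1 - i) with hS
    have hdiff : (h + u) ^ r - h ^ r = u * S := by
      have := (Commute.all (h + u) h).mul_geom_sum₂ r
      rw [add_sub_cancel_left] at this
      exact this.symm
    have hterm : ∀ i ∈ Finset.range r, ((h + u) ^ i * h ^ (r - 1 - i)).Monic ∧
        ((h + u) ^ i * h ^ (r - 1 - i)).natDegree = (r - 1) * D := by
      intro i hi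
      rw [Finset.mem_range] at hi
      refine ⟨(hm'.pow i).mul (hm.pow _), ?_⟩
      rw [(hm'.pow i).natDegree_mul (hm.pow _), hm'.natDegree_pow, hm.natDegree_pow, hd, hd',
        ← add_mul]
      congr 1
      omega
    have hScoeff : S.coeff ((r - 1) * D) = r := by
      rw [hS, finsetSum_coeff]
      rw [Finset.sum_congr rfl (g := fun _ => (1 : ℚ))]
      · simp
      · intro i hi
        obtain ⟨h1, h2⟩ := hterm i hi
        rw [← h2]
        exact h1.coeff_natDegree
    have hSdeg : S.natDegree ≤ (r - 1) * D := by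
      apply natDegree_sum_le_of_forall_le
      intro i hi
      exact (hterm i hi).2.le
    have hnn : n = (D - j - 1) + (r - 1) * D := by
      obtain ⟨r', rfl⟩ : ∃ r', r = r' + 1 := ⟨r - 1, by omega⟩
      rw [hn, Nat.add_sub_cancel, add_mul, one_mul]
      omega
    refine ⟨h + u, hm', hd', ?_⟩
    intro k hk
    have hsplit : F - (h + u) ^ r = (F - h ^ r) - u * S := by
      rw [← hdiff]; ring
    rw [hsplit, coeff_sub]
    rcases Nat.lt_or_ge n k with h1 | h1
    · rw [hc k (by omega)]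
      have h2 : (u * S).natDegree < k := by
        refine lt_of_le_of_lt (natDegree_mul_le) ?_
        omega
      rw [coeff_eq_zero_of_natDegree_lt h2, sub_zero]
    · have hkn : k = n := by omega
      rw [hkn, ← hcdef, hu, mul_assoc, coeff_C_mul, hnn, coeff_X_pow_mul', if_pos (by omega)]
      have h3 : D - j - 1 + (r - 1) * D - (D - j - 1) = (r - 1) * D := by omega
      rw [h3, hScoeff]
      have hr0 : (r : ℚ) ≠ 0 := by exact_mod_cast (by omega : r ≠ 0)
      field_simp
      ring

theorem abs_sub_mul_le {z h : ℝ} (hz : 0 ≤ z) (hh : 0 ≤ h) {r : ℕ} (hr : 1 ≤ r) :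
    |z - h| * h ^ (r - 1) ≤ |z ^ r - h ^ r| := by
  have h1 := (Commute.all z h).mul_geom_sum₂ r
  rw [← h1, abs_mul]
  apply mul_le_mul_of_nonneg_left _ (abs_nonneg _)
  have h2 : ∀ i ∈ Finset.range r, 0 ≤ z ^ i * h ^ (r - 1 - i) := fun i _ => by positivity
  have h3 := Finset.single_le_sum h2 (Finset.mem_range.2 (by omega : 0 < r))
  simp only [pow_zero, one_mul, Nat.sub_zero] at h3
  exact h3.trans (le_abs_self _)

/-- Runge's method for perfect powers. -/
theorem runge (f : ℤ[X]) {r D : ℕ} (hr : 1 ≤ r) (hf : f.Monic) (hdeg : f.natDegree = r * D)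
    (hno : ∀ h : ℚ[X], f.map (Int.castRingHom ℚ) ≠ h ^ r) :
    ∃ y₀ : ℕ, ∀ y : ℕ, y₀ ≤ y → ∀ z : ℕ, f.eval (y : ℤ) ≠ (z : ℤ) ^ r := by
  obtain ⟨h, hm, hd, hc⟩ := approx_root hr (f.map (Int.castRingHom ℚ)) (hf.map _)
    (by rw [hf.natDegree_map, hdeg]) D le_rfl
  set E : ℚ[X] := f.map (Int.castRingHom ℚ) - h ^ r with hE
  have hE0 : E ≠ 0 := by
    intro h0
    exact hno h (sub_eq_zero.1 h0)
  -- the denominators
  obtain ⟨s, hsM, hs⟩ := IsLocalization.integerNormalization_spec (nonZeroDivisors ℤ) h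
  set g := IsLocalization.integerNormalization (nonZeroDivisors ℤ) h with hg
  have hs0 : (s : ℝ) ≠ 0 := by
    have := nonZeroDivisors.ne_zero hsM
    exact_mod_cast this
  -- real polynomials
  set hR : ℝ[X] := h.map (algebraMap ℚ ℝ) with hhR
  set ER : ℝ[X] := E.map (algebraMap ℚ ℝ) with hER
  have hmR : hR.Monic := hm.map _
  have hdR : hR.natDegree = D := by rw [hhR, hm.natDegree_map, hd]
  have hER0 : ER ≠ 0 := by
    rw [hER, Ne, Polynomial.map_eq_zero]
    exact hE0
  have hEdeg : ER.degree < (hR ^ (r - 1)).degree := by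
    rw [degree_eq_natDegree (hmR.pow _).ne_zero, hmR.natDegree_pow, hdR,
      degree_lt_iff_coeff_zero]
    intro k hk
    rw [hER, coeff_map, hc k, map_zero]
    obtain ⟨r', rfl⟩ : ∃ r', r = r' + 1 := ⟨r - 1, by omega⟩
    rw [Nat.add_sub_cancel] at hk
    rw [add_mul, one_mul]
    omega
  have ht := div_tendsto_atTop_zero_of_degree_lt ER (hR ^ (r - 1)) hEdeg
  have hsmall : ∀ᶠ x : ℝ in atTop, |eval x ER / eval x (hR ^ (r - 1))| < 1 / |(s : ℝ)| := by
    have := (tendsto_order.1 ht.abs).2 (1 / |(s : ℝ)|) (by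
      rw [abs_zero]
      have : 0 < |(s : ℝ)| := abs_pos.2 hs0
      positivity)
    exact this
  have hpos : ∀ᶠ x : ℝ in atTop, 0 < eval x hR := by
    rcases Nat.eq_zero_or_pos D with h0 | h0
    · have : hR = 1 := by
        apply hmR.natDegree_eq_zero.1
        rw [hdR, h0]
      rw [this]
      simp
    · have h1 : 0 < hR.degree := by
        rw [degree_eq_natDegree hmR.ne_zero, hdR]
        exact_mod_cast h0
      exact (tendsto_atTop_of_leadingCoeff_nonneg hR h1 (by rw [hmR.leadingCoeff]; norm_num)).eventually_gt_atTop 0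
  have hroot : ∀ᶠ x : ℝ in atTop, ¬ ER.IsRoot x := by
    have hfin : {x | ER.IsRoot x}.Finite := by
      have := ER.rootSet_finite ℝ
      refine this.subset ?_
      intro x hx
      rw [mem_rootSet]
      exact ⟨hER0, by simpa using hx⟩
    obtain ⟨B, hB⟩ := hfin.bddAbove
    filter_upwards [eventually_gt_atTop B] with x hx hx'
    exact absurd (hB hx') (not_le.2 hx)
  have hall := (hsmall.and (hpos.and hroot))
  obtain ⟨B, hB⟩ := eventually_atTop.1 hall
  refine ⟨⌈B⌉₊, fun y hy z hz => ?_⟩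
  obtain ⟨h1, h2, h3⟩ := hB y ((Nat.le_ceil B).trans (by exact_mod_cast hy))
  apply h3
  -- `z ^ r = h(y) ^ r + E(y)`
  have hev : ((z : ℝ)) ^ r = (eval (y : ℝ) hR) ^ r + eval (y : ℝ) ER := by
    have e1 : ER = f.map (Int.castRingHom ℝ) - hR ^ r := by
      rw [hER, hE, Polynomial.map_sub, Polynomial.map_pow, Polynomial.map_map]
      congr 2
    have e2 : eval (y : ℝ) (f.map (Int.castRingHom ℝ)) = (z : ℝ) ^ r := by
      have := congrArg (fun w : ℤ => (w : ℝ)) hz
      simp only [Int.cast_pow, Int.cast_natCast] at this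
      rw [← this, ← Int.cast_natCast (R := ℝ) y, eval_intCast_map]
      simp
    rw [e1, eval_sub, eval_pow, e2]
    ring
  have h4 : |(z : ℝ) - eval (y : ℝ) hR| * (eval (y : ℝ) hR) ^ (r - 1) ≤ |eval (y : ℝ) ER| := by
    have := abs_sub_mul_le (z := (z : ℝ)) (h := eval (y : ℝ) hR) (Nat.cast_nonneg z) h2.le hr
    rw [hev, add_sub_cancel_left] at this
    exact this
  rw [eval_pow, abs_div, abs_of_pos (pow_pos h2 (r - 1)), div_lt_iff₀ (pow_pos h2 _)] at h1
  have h5 : |(z : ℝ) - eval (y : ℝ) hR| < 1 / |(s : ℝ)| :=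
    lt_of_mul_lt_mul_right (h4.trans_lt h1) (pow_pos h2 _).le
  -- integrality
  have hgy : ((g.eval (y : ℤ) : ℤ) : ℝ) = (s : ℝ) * eval (y : ℝ) hR := by
    have e1 := congrArg (fun P : ℚ[X] => eval (y : ℝ) (P.map (algebraMap ℚ ℝ))) hs
    simp only [Polynomial.map_map] at e1
    have e2 : eval (y : ℝ) (g.map ((algebraMap ℚ ℝ).comp (algebraMap ℤ ℚ))) =
        ((g.eval (y : ℤ) : ℤ) : ℝ) := by
      have e3 : (algebraMap ℚ ℝ).comp (algebraMap ℤ ℚ) = Int.castRingHom ℝ := RingHom.ext_int _ _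
      rw [e3, ← Int.cast_natCast (R := ℝ) y, eval_intCast_map]
      simp
    rw [← e2, e1]
    rw [zsmul_eq_mul, Polynomial.map_mul, eval_mul, ← hhR]
    simp
  have h6 : |(((s * (z : ℤ) - g.eval (y : ℤ) : ℤ)) : ℝ)| < 1 := by
    push_cast
    rw [hgy, ← mul_sub, abs_mul]
    rw [lt_div_iff₀ (abs_pos.2 hs0)] at h5
    linarith
  have h7 : s * (z : ℤ) - g.eval (y : ℤ) = 0 := by
    rw [← Int.abs_lt_one_iff]
    exact_mod_cast h6
  have h8 : (s : ℝ) * (z - eval (y : ℝ) hR) = 0 := by
    rw [mul_sub, ← hgy, ← Int.cast_natCast (R := ℝ) z, ← Int.cast_mul, ← Int.cast_sub, h7,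
      Int.cast_zero]
  have h9 : (z : ℝ) = eval (y : ℝ) hR := by
    rcases mul_eq_zero.1 h8 with h | h
    · exact absurd h hs0
    · linarith
  rw [IsRoot.def]
  rw [h9] at hev
  linarith

end Pool.Agent.Wief
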