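import Pool.Agent.Wief.ProgA
import Pool.Agent.Wief.Runge

/-!
# Primes with an exponent not divisible by `r`: a lower bound for their number, for every base
-/

set_option autoImplicit false

namespace Pool.Agent.Wief

open Polynomial Filter Topology

/-- Some prime of order `n` has an exponent not divisible by `r`. -/
def Good (b r n : ℕ) : Prop :=
  ∃ p, p.Prime ∧ orderOf (b : ZMod p) = n ∧ ¬ r ∣ padicValNat p (b ^ (p - 1) - 1) ∧ p < b ^ n

theorem good_or {b r m q : ℕ} (hb : 2 ≤ b) (hm : 0 < m) (hq : q.Prime) (hqm : m < q)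
    (hqb : b ^ m < q) : Good b r (m * q) ∨ ∃ y, cv (m * q) b = y ^ r := by
  by_contra hcon
  rw [not_or] at hcon
  obtain ⟨h1, h2⟩ := hcon
  have hmq : 0 < m * q := Nat.mul_pos hm hq.pos
  apply h2
  apply exists_pow (cv_pos hmq hb).ne'
  intro p hp
  have : Fact p.Prime := ⟨hp⟩
  by_contra hpr
  apply h1
  have hpd : p ∣ cv (m * q) b := by
    by_contra h
    rw [padicValNat.eq_zero_of_not_dvd h] at hpr
    exact hpr (dvd_zero r)
  have hpo := order_of_dvd hb hm hq hqm hqb hpd
  refine ⟨p, hp, hpo, by rwa [val_eq hb hmq hpo], ?_⟩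
  have h3 : cv (m * q) b ∣ b ^ (m * q) - 1 := by
    rw [← cv_prod hmq (by omega : 1 ≤ b)]
    exact Finset.dvd_prod_of_mem _ (Nat.mem_divisors_self _ hmq.ne')
  have h4 : 1 < b ^ (m * q) := Nat.one_lt_pow hmq.ne' (by omega)
  have h5 := Nat.le_of_dvd (by omega) (hpd.trans h3)
  omega

/-- There is a multiple `t` of `m` such that `t q` is good for all large primes `q`. -/
theorem exists_t2 (b m r : ℕ) (hb : 2 ≤ b) (hm : 1 ≤ m) (hr : 2 ≤ r) :
    ∃ t q₀ : ℕ, 0 < t ∧ m ∣ t ∧ ∀ q, q.Prime → q₀ < q → Good b r (t * q) := by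
  set M := m * r ^ 2 with hM
  have hM0 : 0 < M := Nat.mul_pos hm (by positivity)
  by_cases h : ∀ q, q.Prime → M + b ^ M < q → Good b r (M * q)
  · exact ⟨M, M + b ^ M, hM0, dvd_mul_right m _, h⟩
  · push Not at h
    obtain ⟨q₁, hq₁, hq₁', hbad⟩ := h
    obtain ⟨y₁, hy₁⟩ := (good_or hb hM0 hq₁ (by omega) (by omega)).resolve_left hbad
    set t := M * q₁ with ht
    have ht0 : 0 < t := Nat.mul_pos hM0 hq₁.pos
    obtain ⟨D, hD⟩ : r ∣ Nat.totient t := by
      have h1 : r ∣ Nat.totient (r ^ 2) := by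
        have h2 := Nat.totient_gcd_mul_totient_mul r r
        rw [Nat.gcd_self, mul_assoc] at h2
        have h3 : Nat.totient (r * r) = Nat.totient r * r :=
          Nat.eq_of_mul_eq_mul_left (Nat.totient_pos.2 (by omega)) h2
        rw [pow_two, h3]
        exact dvd_mul_left _ _
      refine h1.trans (Nat.totient_dvd_of_dvd ?_)
      rw [ht, hM]
      exact ⟨m * q₁, by ring⟩
    obtain ⟨y₀, hy₀⟩ := runge (cyclotomic t ℤ) (r := r) (D := D) (by omega)
      (cyclotomic.monic t ℤ) (by rw [natDegree_cyclotomic, hD]) (by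
        intro g hg
        rw [map_cyclotomic] at hg
        have hirr := cyclotomic.irreducible_rat ht0
        rw [hg] at hirr
        exact not_irreducible_pow (by omega) hirr)
    refine ⟨t, t + b ^ t + y₀, ht0, (dvd_mul_right m _).trans (dvd_mul_right M q₁), ?_⟩
    intro q hq hq'
    by_contra hbad2
    obtain ⟨y, hy⟩ := (good_or hb ht0 hq (by omega) (by omega)).resolve_left hbad2
    have hqt : ¬ q ∣ t := by
      intro h
      have := Nat.le_of_dvd ht0 h
      omega
    have hexp := congrArg (eval (b : ℤ)) (cyclotomic_expand_eq_cyclotomic_mul hq hqt ℤ)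
    rw [expand_eval, eval_mul, ← cv_cast hb, ← cv_cast hb, hy, hy₁] at hexp
    have hbq : y₀ ≤ b ^ q := by
      have : q < b ^ q := Nat.lt_pow_self (by omega)
      omega
    apply hy₀ (b ^ q) hbq (y * y₁)
    push_cast
    rw [hexp]
    push_cast
    rw [mul_pow]

open scoped Classical

/-- The primes which we count. -/
def Gp (b m r p : ℕ) : Prop :=
  p.Prime ∧ m ∣ orderOf (b : ZMod p) ∧ ¬ r ∣ padicValNat p (b ^ (p - 1) - 1)

theorem good_count {b m r t q₀ : ℕ} (hmt : m ∣ t) (ht : 0 < t)
    (hb : 2 ≤ b) (h : ∀ q, q.Prime → q₀ < q → Good b r (t * q)) (N : ℕ) :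
    Nat.primeCounting (N / t) ≤
      ((Finset.range (b ^ N)).filter fun p => Gp b m r p).card + (q₀ + 1) := by
  set T := ((Finset.range (N / t + 1)).filter Nat.Prime) \ Finset.range (q₀ + 1) with hT
  have h1 : Nat.primeCounting (N / t) ≤ T.card + (q₀ + 1) := by
    have h2 : ((Finset.range (N / t + 1)).filter Nat.Prime).card = Nat.primeCounting (N / t) := by
      rw [Nat.primeCounting, Nat.primeCounting', Nat.count_eq_card_filter_range]
    rw [← h2]
    have h3 := Finset.le_card_sdiff (Finset.range (q₀ + 1))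
      ((Finset.range (N / t + 1)).filter Nat.Prime)
    rw [Finset.card_range, ← hT] at h3
    omega
  have hprop : ∀ q ∈ T, ∃ p, Gp b m r p ∧ orderOf (b : ZMod p) = t * q ∧ p < b ^ N := by
    intro q hq
    rw [hT, Finset.mem_sdiff, Finset.mem_filter, Finset.mem_range, Finset.mem_range] at hq
    obtain ⟨⟨hq1, hq2⟩, hq3⟩ := hq
    obtain ⟨p, hp1, hp2, hp3, hp4⟩ := h q hq2 (by omega)
    refine ⟨p, ⟨hp1, ?_, hp3⟩, hp2, hp4.trans_le ?_⟩
    · rw [hp2]
      exact hmt.trans (dvd_mul_right t q)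
    · apply Nat.pow_le_pow_right (by omega)
      calc t * q ≤ t * (N / t) := Nat.mul_le_mul_left t (by omega)
        _ ≤ N := Nat.mul_div_le N t
  have h2 : T.card ≤ ((Finset.range (b ^ N)).filter fun p => Gp b m r p).card := by
    choose! f hf using hprop
    refine Finset.card_le_card_of_injOn f ?_ ?_
    · intro q hq
      have h3 := hf q hq
      simp only [Finset.coe_filter, Finset.mem_range, Set.mem_ofPred_eq]
      exact ⟨h3.2.2, h3.1⟩
    · intro a ha c hc hac
      have h3 := (hf a ha).2.1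
      have h4 := (hf c hc).2.1
      rw [hac, h4] at h3
      exact Nat.eq_of_mul_eq_mul_left ht h3.symm
  omega

theorem pi_lower (C : ℕ) : ∃ K₀ : ℕ, 2 ≤ K₀ ∧ ∀ K : ℕ, K₀ ≤ K →
    (K : ℝ) / (4 * Real.log K) + C ≤ Nat.primeCounting K := by
  have h1 : Tendsto (fun x : ℝ => Real.log x / x) atTop (𝓝 0) := by
    have := Real.isLittleO_log_id_atTop.tendsto_div_nhds_zero
    simpa using this
  have h2 : ∀ᶠ x : ℝ in atTop, Real.log x / x < 1 / (10 * (C + 2)) :=
    (tendsto_order.1 h1).2 _ (by positivity)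
  obtain ⟨B, hB⟩ := eventually_atTop.1 h2
  refine ⟨max 2 ⌈B⌉₊, le_max_left _ _, fun K hK => ?_⟩
  have hK2 : 2 ≤ K := (le_max_left _ _).trans hK
  have hKB : B ≤ (K : ℝ) := (Nat.le_ceil B).trans (by exact_mod_cast (le_max_right _ _).trans hK)
  have hKR : (2 : ℝ) ≤ K := by exact_mod_cast hK2
  have hlogpos : 0 < Real.log K := Real.log_pos (by linarith)
  have h3 := hB K hKB
  rw [div_lt_div_iff₀ (by linarith) (by positivity), one_mul] at h3
  have h4 := Chebyshev.pi_ge K
  refine le_trans ?_ h4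
  rw [le_div_iff₀ hlogpos, add_mul]
  have h5 : (K : ℝ) / (4 * Real.log K) * Real.log K = K / 4 := by
    field_simp
  rw [h5]
  have h6 : Real.log ((K : ℝ) + 1) ≤ 2 * Real.log K := by
    rw [← Real.log_rpow (by linarith)]
    apply Real.log_le_log (by linarith)
    norm_num
    nlinarith
  have h7 := Real.log_two_gt_d9
  nlinarith [mul_nonneg (Nat.cast_nonneg (α := ℝ) C) hlogpos.le]

/-- The lower bound for the number of primes. -/
theorem count_general (b m r : ℕ) (hb : 2 ≤ b) (hm : 1 ≤ m) (hr : 2 ≤ r) :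
    ∃ c : ℝ, 0 < c ∧ ∃ x₀ : ℕ, ∀ x : ℕ, x₀ ≤ x →
      c * (Real.log x / Real.log (Real.log x)) ≤
        ((Finset.range (x + 1)).filter fun p => Gp b m r p).card := by
  obtain ⟨t, q₀, ht, hmt, hgood⟩ := exists_t2 b m r hb hm hr
  obtain ⟨K₀, hK₀2, hK₀⟩ := pi_lower (q₀ + 1)
  have hlb : 0 < Real.log b := Real.log_pos (by exact_mod_cast (by omega : 1 < b))
  have hlb2 : Real.log 2 ≤ Real.log b :=
    Real.log_le_log (by norm_num) (by exact_mod_cast hb)
  have htR : (1 : ℝ) ≤ t := by exact_mod_cast ht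
  refine ⟨1 / (32 * t * Real.log b), by positivity, b ^ ((K₀ + 2) * t) + 16, fun x hx => ?_⟩
  set N := Nat.log b x with hN
  have hx0 : x ≠ 0 := by omega
  have hNx : b ^ N ≤ x := Nat.pow_log_le_self b hx0
  have hN0 : (K₀ + 2) * t ≤ N := (Nat.le_log_iff_pow_le (by omega) hx0).2 (by omega)
  have hKN : K₀ + 2 ≤ N / t := (Nat.le_div_iff_mul_le ht).2 hN0
  have h1 := good_count hmt ht hb hgood N
  have h2 := hK₀ (N / t) (by omega)
  have h3 : ((N / t : ℕ) : ℝ) / (4 * Real.log (N / t : ℕ)) ≤
      ((Finset.range (b ^ N)).filter fun p => Gp b m r p).card := by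
    have h4 : (Nat.primeCounting (N / t) : ℝ) ≤
      ((Finset.range (b ^ N)).filter fun p => Gp b m r p).card + ((q₀ + 1 : ℕ) : ℝ) := by
      exact_mod_cast h1
    linarith
  have h4 : (((Finset.range (b ^ N)).filter fun p => Gp b m r p).card : ℝ) ≤
      ((Finset.range (x + 1)).filter fun p => Gp b m r p).card := by
    have : ((Finset.range (b ^ N)).filter fun p => Gp b m r p).card ≤
        ((Finset.range (x + 1)).filter fun p => Gp b m r p).card := by
      apply Finset.card_le_card
      apply Finset.filter_subset_filter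
      intro p hp
      rw [Finset.mem_range] at hp ⊢
      omega
    exact_mod_cast this
  refine le_trans ?_ (h3.trans h4)
  -- the real inequalities
  have hNt : (K₀ + 2) * t ≤ N := hN0
  have hN2 : 2 * t ≤ N := (Nat.mul_le_mul_right t (by omega)).trans hN0
  have hN2R : 2 * (t : ℝ) ≤ N := by exact_mod_cast hN2
  have hNR : (2 : ℝ) ≤ N := by linarith
  have hKlow : (N : ℝ) / (2 * t) ≤ ((N / t : ℕ) : ℝ) := by
    have h5 : (N : ℝ) / t < ((N / t : ℕ) : ℝ) + 1 := by
      rw [div_lt_iff₀ (by linarith)]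
      have h6 := Nat.lt_div_mul_add (a := N) ht
      have h7 : N < (N / t + 1) * t := by rw [add_mul, one_mul]; exact h6
      exact_mod_cast h7
    have h6 : (N : ℝ) / t = 2 * (N / (2 * t)) := by
      field_simp
    have h7 : 1 ≤ (N : ℝ) / (2 * t) := by
      rw [le_div_iff₀ (by linarith), one_mul]
      exact hN2R
    linarith
  have hKup : ((N / t : ℕ) : ℝ) ≤ N := by exact_mod_cast Nat.div_le_self N t
  have hK2 : (2 : ℝ) ≤ ((N / t : ℕ) : ℝ) := by
    have : 2 ≤ N / t := by omega
    exact_mod_cast this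
  have hlogK : 0 < Real.log ((N / t : ℕ) : ℝ) := Real.log_pos (by linarith)
  have hlogKN : Real.log ((N / t : ℕ) : ℝ) ≤ Real.log N :=
    Real.log_le_log (by linarith) hKup
  have hxR : (16 : ℝ) ≤ x := by
    have : 16 ≤ x := by omega
    exact_mod_cast this
  have hlogx : 0 < Real.log x := Real.log_pos (by linarith)
  -- `log x ≥ 2 log 2 * 2`
  have hlogx2 : 4 * Real.log 2 ≤ Real.log x := by
    have h5 : Real.log ((2 : ℝ) ^ 4) ≤ Real.log x :=
      Real.log_le_log (by norm_num) (by linarith)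
    rw [Real.log_pow] at h5
    push_cast at h5
    exact h5
  have hl2 := Real.log_two_gt_d9
  have hl2' := Real.log_two_lt_d9
  -- `log x ≤ 2 N log b`
  have hupper : Real.log x ≤ 2 * N * Real.log b := by
    have h5 : x < b ^ (N + 1) := Nat.lt_pow_succ_log_self (by omega) x
    have h6 : (x : ℝ) ≤ (b : ℝ) ^ (N + 1) := by exact_mod_cast h5.le
    have h7 : Real.log x ≤ Real.log ((b : ℝ) ^ (N + 1)) := Real.log_le_log (by linarith) h6
    rw [Real.log_pow] at h7
    push_cast at h7
    nlinarith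
  -- `N ≤ log x / log 2`
  have hlower : (N : ℝ) * Real.log b ≤ Real.log x := by
    have h5 : ((b : ℝ) ^ N) ≤ x := by exact_mod_cast hNx
    have h6 : Real.log ((b : ℝ) ^ N) ≤ Real.log x := by
      apply Real.log_le_log _ h5
      have : (0 : ℝ) < b := by exact_mod_cast (by omega : 0 < b)
      positivity
    rwa [Real.log_pow] at h6
  have hNle : (N : ℝ) ≤ Real.log x * Real.log x := by
    have h5 : (N : ℝ) * Real.log 2 ≤ Real.log x :=
      (mul_le_mul_of_nonneg_left hlb2 (by linarith)).trans hlower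
    nlinarith
  have hlogN : Real.log N ≤ 2 * Real.log (Real.log x) := by
    have h5 : Real.log N ≤ Real.log (Real.log x * Real.log x) :=
      Real.log_le_log (by linarith) hNle
    rw [Real.log_mul hlogx.ne' hlogx.ne'] at h5
    linarith
  have hll : 0 < Real.log (Real.log x) := by
    apply Real.log_pos
    nlinarith
  calc 1 / (32 * t * Real.log b) * (Real.log x / Real.log (Real.log x))
      ≤ 1 / (32 * t * Real.log b) * ((2 * N * Real.log b) / (Real.log N / 2)) := by
        apply mul_le_mul_of_nonneg_left _ (by positivity)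
        apply div_le_div₀ (by positivity) hupper
        · have : 0 < Real.log N := hlogK.trans_le hlogKN
          linarith
        · linarith
    _ = (N / (2 * t)) / (4 * Real.log N) := by
        have : Real.log N ≠ 0 := (hlogK.trans_le hlogKN).ne'
        field_simp
        ring
    _ ≤ ((N / t : ℕ) : ℝ) / (4 * Real.log (N / t : ℕ)) := by
        apply div_le_div₀ (by linarith) hKlow (by linarith)
        linarith

end Pool.Agent.Wief
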