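import Pool.Agent.Wief.Basic

/-!
# Primes `p = 1 mod m` whose exponent in `b ^ (p - 1) - 1` is not divisible by `r`
-/

set_option autoImplicit false

namespace Pool.Agent.Wief

open Polynomial

theorem cv_cast {n b : ℕ} (hb : 2 ≤ b) : (cv n b : ℤ) = (cyclotomic n ℤ).eval (b : ℤ) := by
  unfold cv
  rw [Int.natCast_natAbs, abs_of_pos]
  apply cyclotomic_pos'
  exact_mod_cast hb

theorem exists_pow {N r : ℕ} (hN : N ≠ 0) (h : ∀ p, p.Prime → r ∣ padicValNat p N) :
    ∃ y, N = y ^ r := by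
  refine ⟨N.factorization.prod fun p e => p ^ (e / r), ?_⟩
  conv_lhs => rw [← Nat.prod_factorization_pow_eq_self hN]
  unfold Finsupp.prod
  rw [← Finset.prod_pow]
  refine Finset.prod_congr rfl fun p hp => ?_
  rw [← pow_mul]
  congr 1
  have hpp : p.Prime := Nat.prime_of_mem_primeFactors (by
    rwa [Nat.support_factorization] at hp)
  rw [Nat.factorization_def _ hpp]
  exact (Nat.div_mul_cancel (h p hpp)).symm

/-- A prime `t` such that the order of `b` modulo `t` is a multiple of `M`. -/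
theorem exists_t (b M : ℕ) (hb : 2 ≤ b) (hM : 0 < M) :
    ∃ t m', t.Prime ∧ 0 < m' ∧ M ∣ m' ∧ orderOf (b : ZMod t) = m' := by
  obtain ⟨q, hq1, hq⟩ := Nat.exists_infinite_primes (M + b ^ M + 1)
  have hcv : 1 < cv (M * q) b := cv_gt_one (by have := hq.two_le; nlinarith) hb
  obtain ⟨t, ht, htd⟩ := Nat.exists_prime_and_dvd hcv.ne'
  have : Fact t.Prime := ⟨ht⟩
  exact ⟨t, M * q, ht, Nat.mul_pos hM hq.pos, dvd_mul_right _ _,
    order_of_dvd hb hM hq (by omega) (by omega) htd⟩

theorem inf_AP (b m r : ℕ) (hb : 2 ≤ b) (hm : 1 ≤ m) (hr : 2 ≤ r) :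
    {p : ℕ | p.Prime ∧ p ≡ 1 [MOD m] ∧ ¬ r ∣ padicValNat p (b ^ (p - 1) - 1)}.Infinite := by
  obtain ⟨t, m', ht, hm', hMm, hord⟩ := exists_t b (m * r) hb (Nat.mul_pos hm (by omega))
  have : Fact t.Prime := ⟨ht⟩
  have hmm : m ∣ m' := (dvd_mul_right m r).trans hMm
  have hrm : r ∣ m' := (dvd_mul_left r m).trans hMm
  have hmt : m' ∣ t - 1 := by
    rw [← hord]
    exact order_dvd (by rw [hord]; exact hm')
  have ht2 := ht.two_le
  have hbt : (b : ZMod t) ≠ 0 := by
    intro h0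
    have h1 : (b : ZMod t) ^ m' = 1 := by rw [← hord]; exact pow_orderOf_eq_one _
    rw [h0, zero_pow hm'.ne'] at h1
    exact zero_ne_one h1
  -- a unit which is not an `r`-th power
  obtain ⟨g, hg⟩ : ∃ g : (ZMod t)ˣ, ∀ y : (ZMod t)ˣ, y ^ r ≠ g := by
    by_contra hcon
    push Not at hcon
    have hsurj : Function.Surjective fun y : (ZMod t)ˣ => y ^ r := hcon
    have hinj := Finite.injective_iff_surjective.2 hsurj
    have h1 : (Units.mk0 (b : ZMod t) hbt) ^ (m' / r) = 1 := by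
      apply hinj
      show ((Units.mk0 (b : ZMod t) hbt) ^ (m' / r)) ^ r = 1 ^ r
      rw [one_pow, ← pow_mul, Nat.div_mul_cancel hrm]
      apply Units.ext
      rw [Units.val_pow_eq_pow_val, Units.val_mk0, Units.val_one, ← hord]
      exact pow_orderOf_eq_one _
    have h2 : (b : ZMod t) ^ (m' / r) = 1 := by
      have := congrArg Units.val h1
      rwa [Units.val_pow_eq_pow_val, Units.val_mk0, Units.val_one] at this
    have h3 : m' ∣ m' / r := by
      conv_lhs => rw [← hord]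
      exact orderOf_dvd_of_pow_eq_one h2
    have h4 : 0 < m' / r := Nat.div_pos (Nat.le_of_dvd hm' hrm) (by omega)
    have h5 := Nat.le_of_dvd h4 h3
    have h6 : m' / r < m' := Nat.div_lt_self hm' (by omega)
    omega
  rw [Set.infinite_iff_exists_gt]
  intro B
  -- Dirichlet
  have hcop : Nat.Coprime m' t := by
    rw [Nat.coprime_comm, ht.coprime_iff_not_dvd]
    intro h
    have := Nat.le_of_dvd (by omega) (h.trans hmt)
    omega
  have : NeZero (m' * t) := ⟨(Nat.mul_pos hm' ht.pos).ne'⟩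
  set e := ZMod.chineseRemainder hcop with he
  have hunit : IsUnit (e.symm (1, (g : ZMod t))) := by
    have h1 : IsUnit ((1 : ZMod m'), (g : ZMod t)) := by
      rw [Prod.isUnit_iff]
      exact ⟨isUnit_one, g.isUnit⟩
    exact h1.map e.symm
  obtain ⟨q, hqB, hq, hqe⟩ := Nat.forall_exists_prime_gt_and_eq_mod hunit
    (B + m' + b ^ m' + t)
  have hqe' : e (q : ZMod (m' * t)) = (1, (g : ZMod t)) := by
    rw [hqe, RingEquiv.apply_symm_apply]
  rw [map_natCast] at hqe'
  have hq1 : ((q : ZMod m')) = 1 := congrArg Prod.fst hqe'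
  have hq2 : ((q : ZMod t)) = g := congrArg Prod.snd hqe'
  have hqm : m' ∣ q - 1 := by
    rw [← ZMod.natCast_eq_zero_iff, Nat.cast_sub hq.one_lt.le, hq1]
    simp
  have hqnd : ¬ q ∣ m' := by
    intro h
    have := Nat.le_of_dvd hm' h
    omega
  have hval := cv_mod hm' hord hq hqnd hqm
  rw [← cv_cast hb, Int.cast_natCast, hq2] at hval
  have hcv0 : cv (m' * q) b ≠ 0 := (cv_pos (Nat.mul_pos hm' hq.pos) hb).ne'
  have hex : ∃ p, p.Prime ∧ ¬ r ∣ padicValNat p (cv (m' * q) b) := by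
    by_contra hcon
    push Not at hcon
    obtain ⟨y, hy⟩ := exists_pow hcv0 hcon
    rw [hy, Nat.cast_pow] at hval
    have hy0 : (y : ZMod t) ≠ 0 := by
      intro h0
      rw [h0, zero_pow (by omega)] at hval
      exact g.ne_zero hval.symm
    apply hg (Units.mk0 (y : ZMod t) hy0)
    apply Units.ext
    rw [Units.val_pow_eq_pow_val, Units.val_mk0]
    exact hval
  obtain ⟨p, hp, hpr⟩ := hex
  have : Fact p.Prime := ⟨hp⟩
  have hpd : p ∣ cv (m' * q) b := by
    by_contra h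
    rw [padicValNat.eq_zero_of_not_dvd h] at hpr
    exact hpr (dvd_zero r)
  have hpo := order_of_dvd hb hm' hq (by omega) (by omega) hpd
  have hmq : 0 < m' * q := Nat.mul_pos hm' hq.pos
  have hpd1 : m' * q ∣ p - 1 := by
    rw [← hpo]
    exact order_dvd (by rw [hpo]; exact hmq)
  have hp1 : 0 < p - 1 := by have := hp.two_le; omega
  refine ⟨p, ⟨hp, ?_, ?_⟩, ?_⟩
  · apply Nat.ModEq.symm
    rw [Nat.modEq_iff_dvd' hp.one_lt.le]
    exact (hmm.trans (dvd_mul_right m' q)).trans hpd1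
  · rw [val_eq hb hmq hpo]
    exact hpr
  · have h1 := Nat.le_of_dvd hp1 hpd1
    have h2 : q ≤ m' * q := Nat.le_mul_of_pos_left q hm'
    omega

end Pool.Agent.Wief
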