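import Pool.Agent.Wief.ProgA

/-!
# Many primes with an odd exponent in `2 ^ (p - 1) - 1`
-/

set_option autoImplicit false

namespace Pool.Agent.Wief

open Polynomial

/-- Values at even numbers, for squarefree `n > 1`. -/
theorem cv_mod_even {b n : ℕ} (hb : 2 ≤ b) (hbe : 2 ∣ b) (hn : 1 < n) (hsq : Squarefree n) :
    ((cv n b : ℕ) : ZMod (2 * b)) = 1 + b := by
  induction n using Nat.strong_induction_on with
  | _ n ih =>
    have hbb : (b : ZMod (2 * b)) ^ 2 = 0 := by
      obtain ⟨c, hc⟩ := hbe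
      have : (b : ZMod (2 * b)) ^ 2 = ((c * (2 * b) : ℕ) : ZMod (2 * b)) := by
        rw [← Nat.cast_pow]
        congr 1
        rw [hc]; ring
      rw [this, Nat.cast_mul, ZMod.natCast_self, mul_zero]
    have h2b : (2 : ZMod (2 * b)) * b = 0 := by
      have := ZMod.natCast_self (2 * b)
      rwa [Nat.cast_mul, Nat.cast_two] at this
    have heps : (1 + (b : ZMod (2 * b))) ^ 2 = 1 := by
      have : (1 + (b : ZMod (2 * b))) ^ 2 = 1 + 2 * b + b ^ 2 := by ring
      rw [this, h2b, hbb]; ring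
    have hn0 : n ≠ 0 := by omega
    have hprod := cv_prod (b := b) (by omega : 0 < n) (by omega)
    have hcast := congrArg (fun z : ℕ => (z : ZMod (2 * b))) hprod

    rw [Nat.cast_prod, Nat.cast_sub (Nat.one_le_pow _ _ (by omega)), Nat.cast_pow] at hcast
    have hbn : (b : ZMod (2 * b)) ^ n = 0 := by
      obtain ⟨j, hj⟩ : ∃ j, n = 2 + j := ⟨n - 2, by omega⟩
      rw [hj, pow_add, hbb, zero_mul]
    rw [hbn, Nat.cast_one, zero_sub] at hcast
    -- split the divisors
    have h1m : 1 ∈ n.divisors := Nat.one_mem_divisors.2 hn0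
    have hnm : n ∈ n.divisors.erase 1 := Finset.mem_erase.2 ⟨by omega, Nat.mem_divisors_self n hn0⟩
    rw [← Finset.mul_prod_erase _ _ h1m, ← Finset.mul_prod_erase _ _ hnm] at hcast
    have hcv1 : cv 1 b = b - 1 := by
      have := cv_prod (b := b) (n := 1) one_pos (by omega)
      simpa using this
    have hrest : ∏ d ∈ (n.divisors.erase 1).erase n, ((cv d b : ℕ) : ZMod (2 * b)) =
        (1 + (b : ZMod (2 * b))) ^ ((n.divisors.erase 1).erase n).card := by
      rw [← Finset.prod_const]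
      refine Finset.prod_congr rfl fun d hd => ?_
      rw [Finset.mem_erase, Finset.mem_erase, Nat.mem_divisors] at hd
      have hdn : d ∣ n := hd.2.2.1
      have hd0 : 0 < d := Nat.pos_of_dvd_of_pos hdn (by omega)
      exact ih d (lt_of_le_of_ne (Nat.le_of_dvd (by omega) hdn) hd.1) (by omega)
        (hsq.squarefree_of_dvd hdn)
    have hcard : Even ((n.divisors.erase 1).erase n).card := by
      rw [Finset.card_erase_of_mem hnm, Finset.card_erase_of_mem h1m]
      obtain ⟨s, hs, hsn⟩ := Nat.exists_prime_and_dvd (by omega : n ≠ 1)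
      obtain ⟨n0, rfl⟩ := hsn
      have hcop : Nat.Coprime s n0 := by
        rw [hs.coprime_iff_not_dvd]
        intro h
        obtain ⟨c, rfl⟩ := h
        have := hsq s ⟨c, by ring⟩
        exact hs.one_lt.ne' (Nat.isUnit_iff.1 this)
      rw [hcop.card_divisors_mul, hs.divisors, Finset.card_pair hs.one_lt.ne]
      have h0 : 0 < n0.divisors.card := Finset.card_pos.2
        ⟨1, Nat.one_mem_divisors.2 (by rintro rfl; simp at hn0)⟩
      refine ⟨n0.divisors.card - 1, by omega⟩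
    rw [hrest] at hcast
    obtain ⟨j, hj⟩ := hcard
    rw [hj, ← two_mul, pow_mul, heps, one_pow, mul_one, hcv1, Nat.cast_sub (by omega : 1 ≤ b),
      Nat.cast_one] at hcast
    have : ((cv n b : ℕ) : ZMod (2 * b)) =
        (-(b + 1)) * (((b : ZMod (2 * b)) - 1) * ((cv n b : ℕ) : ZMod (2 * b))) +
          b ^ 2 * ((cv n b : ℕ) : ZMod (2 * b)) := by ring
    rw [this, hcast, hbb]
    ring

theorem cv_two_mod {n : ℕ} (hn : 1 < n) (hsq : Squarefree n) : cv n 2 % 4 = 3 := by
  have h := cv_mod_even (b := 2) le_rfl (dvd_refl 2) hn hsq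
  have h2 : ((cv n 2 : ℕ) : ZMod 4) = ((3 : ℕ) : ZMod 4) := by
    have e : ((3 : ℕ) : ZMod 4) = 1 + ((2 : ℕ) : ZMod 4) := by decide
    rw [e]; exact h
  exact (ZMod.natCast_eq_natCast_iff' _ _ _).1 h2

theorem cv_four_mul {a : ℕ} : cv (4 * a) 2 = cv (2 * a) 4 := by
  have h := cyclotomic_expand_eq_cyclotomic Nat.prime_two (dvd_mul_right 2 a) ℤ
  unfold cv
  have e : 4 * a = 2 * a * 2 := by ring
  rw [e, ← h, expand_eval]
  norm_num

theorem cv_four_mod {a : ℕ} (ha : 0 < a) (hsq : Squarefree (2 * a)) : cv (4 * a) 2 % 8 = 5 := by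
  rw [cv_four_mul]
  have h := cv_mod_even (b := 4) (by norm_num) (by norm_num) (by omega : 1 < 2 * a) hsq
  have h2 : ((cv (2 * a) 4 : ℕ) : ZMod 8) = ((5 : ℕ) : ZMod 8) := by
    have e : ((5 : ℕ) : ZMod 8) = 1 + ((4 : ℕ) : ZMod 8) := by decide
    rw [e]; exact h
  exact (ZMod.natCast_eq_natCast_iff' _ _ _).1 h2

/-- If all the primes with odd exponent are `1 mod Q`, `Q ∣ 8`, then `N = 1 mod Q`. -/
theorem mod_of_odd {N Q : ℕ} (hQ : Q ∣ 8) (hN : N % 2 = 1)
    (h : ∀ p, p.Prime → Odd (padicValNat p N) → p ≡ 1 [MOD Q]) : N ≡ 1 [MOD Q] := by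
  have hN0 : N ≠ 0 := by rintro rfl; simp at hN
  rw [← ZMod.natCast_eq_natCast_iff, Nat.cast_one]
  conv_lhs => rw [← Nat.prod_factorization_pow_eq_self hN0]
  unfold Finsupp.prod
  rw [Nat.cast_prod]
  apply Finset.prod_eq_one
  intro p hp
  rw [Nat.support_factorization] at hp
  have hpp := Nat.prime_of_mem_primeFactors hp
  have hpd := Nat.dvd_of_mem_primeFactors hp
  rw [Nat.factorization_def _ hpp, Nat.cast_pow]
  rcases Nat.even_or_odd (padicValNat p N) with he | ho
  · obtain ⟨j, hj⟩ := he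
    have hodd : p % 2 = 1 := by
      rcases hpp.eq_two_or_odd with h2 | h2
      · subst h2; omega
      · exact h2
    have h8 : p ^ 2 ≡ 1 [MOD 8] := by
      have h3 : p % 8 = 1 ∨ p % 8 = 3 ∨ p % 8 = 5 ∨ p % 8 = 7 := by omega
      unfold Nat.ModEq
      rw [Nat.pow_mod]
      rcases h3 with h3 | h3 | h3 | h3 <;> rw [h3]
    have hq := h8.of_dvd hQ
    rw [← ZMod.natCast_eq_natCast_iff, Nat.cast_pow, Nat.cast_one] at hq
    rw [hj, ← two_mul, pow_mul, hq, one_pow]
  · have hq := h p hpp ho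
    rw [← ZMod.natCast_eq_natCast_iff, Nat.cast_one] at hq
    rw [hq, one_pow]

/-- The order of 2 modulo an intrinsic prime. -/
theorem intrinsic {p n b : ℕ} [hp : Fact p.Prime] (hpn : ¬ p ∣ n) (h : p ∣ cv (n * p) b) :
    orderOf (b : ZMod p) = n := by
  rw [cv_dvd, cyclotomic_mul_prime_eq_pow_of_not_dvd (ZMod p) hpn] at h
  rw [← cv_dvd_iff hpn, cv_dvd]
  rw [IsRoot.def, eval_pow] at h
  exact eq_zero_of_pow_eq_zero h

end Pool.Agent.Wief
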